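import Pool.Agent.R785.SI.Surreal3

/-!
# Every discrete initial subgroup of `No` is isomorphic to an initial subgroup of `Oz`

The surreal numbers are constructed in `Pool/Agent/R785/SI/Surreal1.lean` (sign expansions, the
lexicographic order, the initial segment relation `sle`, simplest numbers in intervals) and
`Pool/Agent/R785/SI/Surreal2.lean` (Conway addition, the ordered group structure, the number `1`).

Let `G` be a discrete initial subgroup with least positive element `ε`.

* `PartA.lean`: the elements of `G` which are simplest in their coset modulo `ℤ ε` form a
  subgroup `S`, so `G` is the lexicographic product of `S` and `ℤ ε`. `S` need not be initial, but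
  it has the two properties `H1`, `H2` of `Defs.lean`.
* `PartB.lean`: from `H1` and `H2` one gets an order preserving homomorphism `Ψ : S → No`, given by
  the recursion `Ψ x = {Ψ x' + n | Ψ x'' - n}` over the simpler elements `x' < x < x''` of `S` and all
  natural numbers `n`, such that `{Ψ x + k : x ∈ S, k ∈ ℤ}` is initial and contained in `Oz`.
* `PartC.lean`: this group is isomorphic to `G` as an ordered group.
-/

universe u

namespace Pool.Agent.Results.MP_c618e1_lc.DiscreteInitial

open R785.SI R785.SI.Surreal

/-- Every discrete initial subgroup of the surreal numbers is isomorphic, as an ordered group, to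
an initial subgroup of the surreal numbers contained in the omnific integers. -/
theorem result (G : AddSubgroup Surreal.{u}) (hG : ∀ x ∈ G, ∀ v, sle v x → v ∈ G)
    (hd : ∃ ε ∈ G, 0 < ε ∧ ∀ g ∈ G, 0 < g → ε ≤ g) :
    ∃ H : AddSubgroup Surreal.{u}, (∀ x ∈ H, ∀ v, sle v x → v ∈ H) ∧
      (∀ x ∈ H, IsOmnific x) ∧ Nonempty (G ≃+o H) :=
  main G hG hd

end Pool.Agent.Results.MP_c618e1_lc.DiscreteInitial
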